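import Pool.Agent.H242.LD.Fin
import Pool.Agent.H32.LD.CODE
import Pool.Agent.H412.LD.SLICE
import Pool.Agent.H377.LD.TREE
import Pool.Agent.H643.LD.CHILD
import Pool.Agent.H539.LD.SEG
import Pool.Agent.H977.LD.START
import Pool.Agent.H117.LD.DIM
import Pool.Agent.H740.LD.AVOID
import Pool.Agent.H364.LD.LYAP
import Pool.Agent.H295.LD.ARC
import Pool.Agent.H225.LD.NUM

set_option autoImplicit false

/-!
# Local dimension of the standard map: the unconditional statements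
-/

namespace Pool.Agent.H242.LD

open Real Set Metric Filter Topology
open Pool.Agent.TH705.SM (T2 S Si)
open Pool.Agent.H242.TM

theorem t_main {a ω : ℝ} {N : ℕ} (ha : 5 ≤ |a|) (h1 : 1 / |a| < ω) (h2 : ω < 1 / 4) (hN : 3 ≤ N)
    (hN2 : (N : ℝ) + 4 ≤ 4 * |a| * cos (2 * π * ω)) {U : Set T2} (hU : IsOpen U)
    (hUX : (U ∩ closure (Ws a)).Nonempty) :
    ENNReal.ofReal (1 + Real.log N / Real.log (2 * π * |a| + 3)) ≤
      dimH {z : T2 | z ∈ U ∩ closure (Ws a) ∧ Far a ω z} :=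
  main Pool.Agent.H32.LD.ld_CODE Pool.Agent.H412.LD.ld_SLICE Pool.Agent.H377.LD.ld_TREE
    Pool.Agent.H643.LD.ld_CHILD (Pool.Agent.H977.LD.ld_START Pool.Agent.H539.LD.ld_SEG)
    Pool.Agent.H117.LD.ld_DIM Pool.Agent.H740.LD.ld_AVOID Pool.Agent.H295.LD.ARC.ld_ARC
    ha h1 h2 hN hN2 hU hUX

theorem t_growth {a ω : ℝ} (ha : 5 ≤ |a|) (h1 : 1 / |a| < ω) (h2 : ω < 1 / 4)
    {z : T2} (hz : Far a ω z) {p : ℝ × ℝ} (hp : pr p = z) :
    1 < 2 * π * |a| * sin (2 * π * ω) - 3 ∧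
    ∃ c > 0, ∀ n : ℕ, c * (2 * π * |a| * sin (2 * π * ω) - 3) ^ n ≤ ‖fderiv ℝ ((F a)^[n]) p‖ :=
  growth Pool.Agent.H364.LD.ld_LYAP Pool.Agent.H295.LD.ARC.ld_ARC ha h1 h2 hz hp

theorem t_NUM : S_NUM := Pool.Agent.H225.LD.ld_NUM

end Pool.Agent.H242.LD
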