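import Pool.Agent.H242.LD.Stm2

set_option autoImplicit false

/-!
# Local dimension of the standard map: assembly of the sharper bound
-/

namespace Pool.Agent.H242.LD

open Real Set Metric Filter Topology
open Pool.Agent.TH705.SM (T2 S Si)
open Pool.Agent.H242.TM

theorem point (hAVOID : S_AVOID) (hARC : S_ARC) {a ω : ℝ} (ha : 5 ≤ |a|) (h1 : 1 / |a| < ω) (h2 : ω < 1 / 4)
    {U : Set T2} {u : T2} {n₀ M : ℕ} (hu : u ∈ U) {p : ℝ × ℝ} (hu2 : (S a)^[n₀] u = pr p)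
    (hX : ∀ n ≥ M, ∃ k : ℤ, ((F a)^[n] p).1 ∈ Icc (lo ω k) (hi ω k)) :
    u ∈ {z : T2 | z ∈ U ∩ closure (Ws a) ∧ Far a ω z} := by
  have hω0 : 0 < ω := lt_trans (by positivity) h1
  have hfar : ∀ n ≥ M, ω ≤ dist ((S a)^[n] (pr p)).1 ((1 / 4 : ℝ) : UnitAddCircle) ∧
      ω ≤ dist ((S a)^[n] (pr p)).1 ((3 / 4 : ℝ) : UnitAddCircle) := by
    intro n hn
    obtain ⟨k', hk'⟩ := hX n hn
    have h3 := (hARC ω _ hω0 h2).1 ⟨k', hk'⟩
    rw [← pr_iter]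
    exact h3
  have hfar2 : ∀ n ≥ M + n₀, ω ≤ dist ((S a)^[n] u).1 ((1 / 4 : ℝ) : UnitAddCircle) ∧
      ω ≤ dist ((S a)^[n] u).1 ((3 / 4 : ℝ) : UnitAddCircle) := by
    intro n hn
    have h3 := hfar (n - n₀) (by omega)
    rw [← hu2, ← Function.iterate_add_apply, show n - n₀ + n₀ = n by omega] at h3
    exact h3
  have hX : u ∈ closure (Ws a) := by
    refine hAVOID a u (M + n₀) ha ?_
    intro n hn hmem
    have h3 := hfar2 n hn
    rcases hmem with h4 | h4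
    · linarith [h3.1]
    · linarith [h3.2]
  exact ⟨⟨hu, hX⟩, ⟨M + n₀, hfar2⟩⟩

theorem main2 (hSLICE : S_SLICE) (hKID : S_KID) (hTREE2 : S_TREE2) (hSTART2 : S_START2) (hNUM2 : S_NUM2)
    (hDIM : S_DIM) (hAVOID : S_AVOID) (hARC : S_ARC)
    {a ω : ℝ} (ha : 1000 ≤ |a|) (hω : 1 / √|a| ≤ ω) (hω' : ω ≤ 1 / 16) {U : Set T2} (hU : IsOpen U)
    (hUX : (U ∩ closure (Ws a)).Nonempty) :
    ENNReal.ofReal (2 - 13 * ω / Real.log (|a| * ω)) ≤
      dimH {z : T2 | z ∈ U ∩ closure (Ws a) ∧ Far a ω z} := by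
  obtain ⟨hm, hm2, h1, he0, he1, hnum⟩ := hNUM2 a ω ha hω hω'
  have ha0 : 0 < |a| := by linarith
  have ha5 : 5 ≤ |a| := by linarith
  have hω0 : 0 < ω := lt_trans (by positivity) h1
  have h2 : ω < 1 / 4 := by linarith
  set e : ℝ := 1 - 13 * ω / Real.log (|a| * ω) with he
  set R : ℝ := 2 * π * |a| + 3 with hR
  have hR1 : 1 < R := by
    have : 0 ≤ 2 * π * |a| := by positivity
    linarith
  have hR0 : 0 < R := by linarith
  have hUW : (U ∩ Ws a).Nonempty := by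
    obtain ⟨x, hx, hx2⟩ := hUX
    exact _root_.mem_closure_iff.1 hx2 U hU hx
  obtain ⟨n₀, M, x, y, δ, ρ, hδ, hρ, hin, hnode⟩ := hSTART2 a ω U ha hω0 hω' hU hUW
  set E : Set T2 := {z : T2 | z ∈ U ∩ closure (Ws a) ∧ Far a ω z} with hE
  have hd1 := hDIM.2 a n₀ E
  have hd2 := hDIM.1 ((S a)^[n₀] '' E)
  refine le_trans ?_ (hd2.trans hd1)
  have e2 : 2 - 13 * ω / Real.log (|a| * ω) = 1 + e := by rw [he]; ring
  rw [e2]
  have hc0 : 0 < 2 * ω / R := by positivity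
  have hc1 : 2 * ω / R ≤ 1 := by
    rw [div_le_one hR0]
    linarith
  have hL0 : 0 < 3 / 8 / R ^ M := by positivity
  refine hSLICE _ y δ e ((2 * ω / R * (3 / 8 / R ^ M)) ^ e) hδ he0 (by positivity) ?_
  intro y' hy' t ht
  obtain ⟨s, t₁, hs, ht₁, hnd⟩ := hnode y' hy'
  -- the length of the first node
  have hlen : 3 / 8 / R ^ M ≤ t₁ - s := by
    obtain ⟨hst, ⟨k, hk⟩, -⟩ := hnd
    have h3 := (lip a x y' t₁ s M).1
    rw [div_le_iff₀ (by positivity)]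
    have h4 : 3 / 8 ≤ |((F a)^[M] (hor x y' t₁)).1 - ((F a)^[M] (hor x y' s)).1| := by
      have h5 : (((F a)^[M] (hor x y' s)).1 = lo ω k ∧ ((F a)^[M] (hor x y' t₁)).1 = hi ω k) ∨
        (((F a)^[M] (hor x y' s)).1 = hi ω k ∧ ((F a)^[M] (hor x y' t₁)).1 = lo ω k) := hk.2.1
      rcases h5 with ⟨h6, h7⟩ | ⟨h6, h7⟩
      · rw [h6, h7]
        unfold lo hi
        rw [le_abs]; left; linarith
      · rw [h6, h7]
        unfold lo hi
        rw [le_abs]; right; linarith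
    rw [abs_of_pos (by linarith : 0 < t₁ - s)] at h3
    linarith [mul_comm (t₁ - s) (R ^ M)]
  have hkey := hTREE2 (fun n s t => Nod a ω x y' (M + n) s t) (2 * ω / R) e s t₁ hc0 hc1 he0
    (fun n s t h => h.1)
    (fun n s t h => hKID a ω e x y' (M + n) s t hω0 hω' hm hm2 he0 he1 hnum h) hnd
    (fun i => (fun τ => x + τ) ⁻¹' (t i)) ?_
  · calc ENNReal.ofReal ((2 * ω / R * (3 / 8 / R ^ M)) ^ e)
        ≤ ENNReal.ofReal ((2 * ω / R * (t₁ - s)) ^ e) :=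
          ENNReal.ofReal_le_ofReal (Real.rpow_le_rpow (by positivity)
            (mul_le_mul_of_nonneg_left hlen hc0.le) he0.le)
      _ ≤ ∑' i, (Metric.ediam ((fun τ => x + τ) ⁻¹' (t i))) ^ e := hkey
      _ ≤ ∑' i, (Metric.ediam (t i)) ^ e := by
          refine ENNReal.tsum_le_tsum fun i => ENNReal.rpow_le_rpow ?_ he0.le
          refine Metric.ediam_le fun u hu v hv => ?_
          have h3 : edist u v = edist (x + u) (x + v) := (edist_add_left x u v).symm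
          rw [h3]
          exact Metric.edist_le_ediam_of_mem hu hv
  · rintro τ ⟨hτ, hτ2⟩
    have hτ' : τ ∈ Icc 0 ρ := ⟨hs.trans hτ.1, hτ.2.trans ht₁⟩
    obtain ⟨u, hu, hu2⟩ := hin y' hy' τ hτ'
    have h4 : u ∈ E := by
      refine point hAVOID hARC ha5 h1 h2 (M := M) hu hu2 ?_
      intro n hn
      obtain ⟨m, rfl⟩ := Nat.exists_eq_add_of_le hn
      obtain ⟨s', t', ⟨-, ⟨k, hk⟩, -⟩, h6⟩ := hτ2 m
      exact ⟨k, hk.2.2 τ h6⟩
    have h5 : x + τ ∈ {x' : ℝ | (x', y') ∈ pr ⁻¹' ((S a)^[n₀] '' E)} := ⟨u, h4, hu2⟩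
    obtain ⟨i, hi⟩ := mem_iUnion.1 (ht h5)
    exact mem_iUnion.2 ⟨i, hi⟩

end Pool.Agent.H242.LD
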