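import Pool.Agent.H242.LD.All
import Pool.Agent.H242.LD.Fin2
import Pool.Agent.H722.LE.DIFF
import Pool.Agent.H92.LE.DIST
import Pool.Agent.H673.LE.LEN
import Pool.Agent.H405.LE.KID
import Pool.Agent.H376.LE.TREE2
import Pool.Agent.H710.LE.START2
import Pool.Agent.H44.LE.NUM2

set_option autoImplicit false

/-!
# Local dimension of the standard map: the sharper bound, unconditional
-/

namespace Pool.Agent.H242.LD

open Real Set Metric Filter Topology
open Pool.Agent.TH705.SM (T2 S Si)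
open Pool.Agent.H242.TM

theorem t_NUM2 : S_NUM2 := Pool.Agent.H44.LE.le_NUM2

theorem t_KID : S_KID :=
  Pool.Agent.H405.LE.le_KID Pool.Agent.H722.LE.DIFF.le_DIFF Pool.Agent.H92.LE.le_DIST
    (Pool.Agent.H673.LE.le_LEN Pool.Agent.H92.LE.le_DIST)

theorem t_main2 {a ω : ℝ} (ha : 1000 ≤ |a|) (hω : 1 / √|a| ≤ ω) (hω' : ω ≤ 1 / 16) {U : Set T2} (hU : IsOpen U)
    (hUX : (U ∩ closure (Ws a)).Nonempty) :
    ENNReal.ofReal (2 - 13 * ω / Real.log (|a| * ω)) ≤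
      dimH {z : T2 | z ∈ U ∩ closure (Ws a) ∧ Far a ω z} :=
  main2 Pool.Agent.H412.LD.ld_SLICE t_KID Pool.Agent.H376.LE.le_TREE2 Pool.Agent.H710.LE.le_START2 t_NUM2
    Pool.Agent.H117.LD.ld_DIM Pool.Agent.H740.LD.ld_AVOID Pool.Agent.H295.LD.ARC.ld_ARC ha hω hω' hU hUX

end Pool.Agent.H242.LD
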