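import Pool.Agent.H242.LD.Stm

set_option autoImplicit false

/-!
# Local dimension of the hyperbolic part of the standard map: assembly
-/

namespace Pool.Agent.H242.LD

open Real Set Metric Filter Topology
open Pool.Agent.TH705.SM (T2 S Si)
open Pool.Agent.H242.TM

/-- from some time on the orbit stays at distance `ω` from the two critical circles -/
def Far (a ω : ℝ) (z : T2) : Prop := ∃ n₀ : ℕ, ∀ n ≥ n₀,
  ω ≤ dist ((S a)^[n] z).1 ((1 / 4 : ℝ) : UnitAddCircle) ∧ ω ≤ dist ((S a)^[n] z).1 ((3 / 4 : ℝ) : UnitAddCircle)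

theorem lip (a x y τ σ : ℝ) (n : ℕ) :
    |((F a)^[n] (hor x y τ)).1 - ((F a)^[n] (hor x y σ)).1| ≤ (2 * π * |a| + 3) ^ n * |τ - σ| ∧
    |((F a)^[n] (hor x y τ)).2 - ((F a)^[n] (hor x y σ)).2| ≤ (2 * π * |a| + 3) ^ n * |τ - σ| := by
  have hR : 1 ≤ 2 * π * |a| + 3 := by
    have : 0 ≤ 2 * π * |a| := by positivity
    linarith
  have hphi : ∀ u v : ℝ, |phi a u - phi a v| ≤ (2 + 2 * π * |a|) * |u - v| := by
    intro u v
    unfold phi
    have h1 : |sin (2 * π * u) - sin (2 * π * v)| ≤ 2 * π * |u - v| := by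
      have h2 := Real.lipschitzWith_sin.dist_le_mul (2 * π * u) (2 * π * v)
      rw [Real.dist_eq, Real.dist_eq, ← mul_sub, abs_mul, abs_of_pos (by positivity : (0:ℝ) < 2 * π)] at h2
      simpa using h2
    have e : 2 * u + a * sin (2 * π * u) - (2 * v + a * sin (2 * π * v)) =
      2 * (u - v) + a * (sin (2 * π * u) - sin (2 * π * v)) := by ring
    rw [e]
    refine (abs_add_le _ _).trans ?_
    rw [abs_mul, abs_mul, abs_of_pos (by norm_num : (0:ℝ) < 2)]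
    have := mul_le_mul_of_nonneg_left h1 (abs_nonneg a)
    nlinarith
  induction n with
  | zero =>
    constructor
    · simp [hor]
    · simp [hor]
  | succ n ih =>
    obtain ⟨h1, h2⟩ := ih
    have h0 : 0 ≤ (2 * π * |a| + 3) ^ n * |τ - σ| := by positivity
    constructor
    · rw [iter_fst', iter_fst']
      have e : phi a ((F a)^[n] (hor x y τ)).1 - ((F a)^[n] (hor x y τ)).2 -
          (phi a ((F a)^[n] (hor x y σ)).1 - ((F a)^[n] (hor x y σ)).2) =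
          (phi a ((F a)^[n] (hor x y τ)).1 - phi a ((F a)^[n] (hor x y σ)).1) -
          (((F a)^[n] (hor x y τ)).2 - ((F a)^[n] (hor x y σ)).2) := by ring
      rw [e]
      refine (abs_sub _ _).trans ?_
      have h3 := hphi ((F a)^[n] (hor x y τ)).1 ((F a)^[n] (hor x y σ)).1
      have h4 : (2 + 2 * π * |a|) * |((F a)^[n] (hor x y τ)).1 - ((F a)^[n] (hor x y σ)).1| ≤
          (2 + 2 * π * |a|) * ((2 * π * |a| + 3) ^ n * |τ - σ|) :=
        mul_le_mul_of_nonneg_left h1 (by positivity)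
      rw [pow_succ]
      nlinarith
    · rw [iter_snd, iter_snd]
      refine h1.trans ?_
      rw [pow_succ]
      nlinarith

theorem main (hCODE : S_CODE) (hSLICE : S_SLICE) (hTREE : S_TREE) (hCHILD : S_CHILD) (hSTART : S_START)
    (hDIM : S_DIM) (hAVOID : S_AVOID) (hARC : S_ARC)
    {a ω : ℝ} {N : ℕ} (ha : 5 ≤ |a|) (h1 : 1 / |a| < ω) (h2 : ω < 1 / 4) (hN : 3 ≤ N)
    (hN2 : (N : ℝ) + 4 ≤ 4 * |a| * cos (2 * π * ω)) {U : Set T2} (hU : IsOpen U)
    (hUX : (U ∩ closure (Ws a)).Nonempty) :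
    ENNReal.ofReal (1 + Real.log N / Real.log (2 * π * |a| + 3)) ≤
      dimH {z : T2 | z ∈ U ∩ closure (Ws a) ∧ Far a ω z} := by
  have ha0 : 0 < |a| := by linarith
  have hω0 : 0 < ω := lt_trans (by positivity) h1
  set R : ℝ := 2 * π * |a| + 3 with hR
  have hR1 : 1 < R := by
    have : 0 ≤ 2 * π * |a| := by positivity
    linarith
  have hR0 : 0 < R := by linarith
  have hN1 : (3:ℝ) ≤ N := by exact_mod_cast hN
  have hlogN : 0 < Real.log N := Real.log_pos (by linarith)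
  have hlogR : 0 < Real.log R := Real.log_pos hR1
  have hUW : (U ∩ Ws a).Nonempty := by
    obtain ⟨x, hx, hx2⟩ := hUX
    exact _root_.mem_closure_iff.1 hx2 U hU hx
  obtain ⟨n₀, M, x, y, δ, ρ, hδ, hρ, hin, hnode⟩ := hSTART a ω U ha hω0 h2 hU hUW
  set E : Set T2 := {z : T2 | z ∈ U ∩ closure (Ws a) ∧ Far a ω z} with hE
  have hd1 := hDIM.2 a n₀ E
  have hd2 := hDIM.1 ((S a)^[n₀] '' E)
  refine le_trans ?_ (hd2.trans hd1)
  have hκ : 0 < 2 * ω / R ^ (M + 2) := by positivity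
  refine hSLICE _ y δ (Real.log N / Real.log R) ((2 * ω / R ^ (M + 2)) ^ (Real.log N / Real.log R)) hδ
    (by positivity) (by positivity) ?_
  intro y' hy' t ht
  obtain ⟨s, t₁, k, hs, ht₁, hnd⟩ := hnode y' hy'
  have hγ : Continuous (hor x y') := by unfold hor; fun_prop
  -- the first child
  obtain ⟨f, -, hf⟩ := hCHILD a ω (3 / 2) 1 (hor x y') M s t₁ k hω0 h2 (by norm_num)
    (by push_cast; linarith) hγ hnd
  obtain ⟨s', t', hs', ht', hnd'⟩ := hf 0
  obtain ⟨pt, hp1, hp2, hp3⟩ := hTREE (fun n τ => ((F a)^[M + 1 + n] (hor x y' τ)).1) N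
    (fun n s t k => Node a ω (1 / 2) (hor x y') (M + 1 + n) s t k) ω s' t' (f 0) hω0 h2
    (fun n s t k h => h.1)
    (fun n s t k h => hCHILD a ω (1 / 2) N (hor x y') (M + 1 + n) s t k hω0 h2 (by norm_num)
      (by linarith) hγ h) hnd'
  -- the coded points belong to the set
  have hmem : ∀ σ, x + pt σ ∈ {x' : ℝ | (x', y') ∈ pr ⁻¹' ((S a)^[n₀] '' E)} := by
    intro σ
    have hτ : pt σ ∈ Icc 0 ρ := ⟨hs.trans (hs'.trans (hp1 σ).1), (hp1 σ).2.trans (ht'.trans ht₁)⟩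
    obtain ⟨u, hu, hu2⟩ := hin y' hy' (pt σ) hτ
    have hfar : ∀ n ≥ M + 1, ω ≤ dist ((S a)^[n] (pr (hor x y' (pt σ)))).1 ((1 / 4 : ℝ) : UnitAddCircle) ∧
        ω ≤ dist ((S a)^[n] (pr (hor x y' (pt σ)))).1 ((3 / 4 : ℝ) : UnitAddCircle) := by
      intro n hn
      obtain ⟨m, rfl⟩ := Nat.exists_eq_add_of_le hn
      obtain ⟨k', hk'⟩ := hp2 σ m
      have h3 := (hARC ω _ hω0 h2).1 ⟨k', hk'⟩
      rw [← pr_iter]
      exact h3
    have hfar2 : ∀ n ≥ M + 1 + n₀, ω ≤ dist ((S a)^[n] u).1 ((1 / 4 : ℝ) : UnitAddCircle) ∧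
        ω ≤ dist ((S a)^[n] u).1 ((3 / 4 : ℝ) : UnitAddCircle) := by
      intro n hn
      have h3 := hfar (n - n₀) (by omega)
      rw [← hu2, ← Function.iterate_add_apply, show n - n₀ + n₀ = n by omega] at h3
      exact h3
    have hX : u ∈ closure (Ws a) := by
      refine hAVOID a u (M + 1 + n₀) ha ?_
      intro n hn hmem
      have h3 := hfar2 n hn
      rcases hmem with h4 | h4
      · linarith [h3.1]
      · linarith [h3.2]
    exact ⟨u, ⟨⟨hu, hX⟩, ⟨M + 1 + n₀, hfar2⟩⟩, hu2⟩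
  have hcode := hCODE N (1 / R) (2 * ω / R ^ (M + 2)) (fun σ => x + pt σ) (by omega) (by positivity)
    (by rw [div_lt_one hR0]; exact hR1) hκ ?_ t ?_
  · rw [one_div_one_div] at hcode
    exact hcode
  · intro σ τ n hlt hne
    have h3 := hp3 σ τ n hlt hne
    have h4 := (lip a x y' (pt σ) (pt τ) (M + 1 + (n + 1))).1
    have h5 : 2 * ω ≤ R ^ (M + 1 + (n + 1)) * |pt σ - pt τ| := h3.trans h4
    have e1 : x + pt σ - (x + pt τ) = pt σ - pt τ := by ring
    rw [e1]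
    have h6 : (0:ℝ) < R ^ (M + 2) * R ^ n := by positivity
    rw [one_div, inv_pow, ← div_eq_mul_inv, div_div, div_le_iff₀ h6]
    calc 2 * ω ≤ R ^ (M + 1 + (n + 1)) * |pt σ - pt τ| := h5
      _ = |pt σ - pt τ| * (R ^ (M + 2) * R ^ n) := by rw [← pow_add]; ring_nf
  · rintro _ ⟨σ, rfl⟩
    exact ht (hmem σ)

theorem growth (hLYAP : S_LYAP) (hARC : S_ARC) {a ω : ℝ} (ha : 5 ≤ |a|) (h1 : 1 / |a| < ω) (h2 : ω < 1 / 4)
    {z : T2} (hz : Far a ω z) {p : ℝ × ℝ} (hp : pr p = z) :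
    1 < 2 * π * |a| * sin (2 * π * ω) - 3 ∧
    ∃ c > 0, ∀ n : ℕ, c * (2 * π * |a| * sin (2 * π * ω) - 3) ^ n ≤ ‖fderiv ℝ ((F a)^[n]) p‖ := by
  obtain ⟨n₀, hn₀⟩ := hz
  refine hLYAP a ω p n₀ ha h1 h2 fun n hn => ?_
  have hω0 : 0 < ω := lt_trans (by positivity) h1
  refine (hARC ω _ hω0 h2).2 ?_
  have h3 := hn₀ n hn
  rw [← hp, ← pr_iter] at h3
  exact h3

end Pool.Agent.H242.LD
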