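import Pool.Agent.H242.TM.Mult3
import Pool.Agent.H242.TM.Spec

set_option autoImplicit false

/-!
# Local dimension of the hyperbolic part of the standard map: the lemmas (project LD of helper242)

`F a (x, y) = (phi a x - y, x)`, `phi a x = 2 x + a sin 2 π x`, is the lift of the standard map to the plane, `pr` the
projection to the torus `T2`, `S a` the standard map, `Ws a` the stable set of the fixed point `(0, 0)`.

Every lemma `S_XXX : Prop` is proved in an own file `Pool/Agent/H<seat>/LD/XXX.lean` which imports this file only.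
-/

namespace Pool.Agent.H242.LD

open Real Set Metric Filter Topology
open Pool.Agent.TH705.SM (T2 S Si)
open Pool.Agent.H242.TM

/-- The lower end of the arc with the number `k`: the arcs are the closed intervals between neighbouring zeros of
`cos 2 π x`, shortened by `ω` on both sides. -/
noncomputable def lo (ω : ℝ) (k : ℤ) : ℝ := (k : ℝ) / 2 - 1 / 4 + ω

/-- The upper end of the arc with the number `k`. -/
noncomputable def hi (ω : ℝ) (k : ℤ) : ℝ := (k : ℝ) / 2 + 1 / 4 - ω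

/-- The horizontal line of height `y`. -/
def hor (x y τ : ℝ) : ℝ × ℝ := (x + τ, y)

/-- On the parameter interval `[s, t]` the path `F^n ∘ γ` crosses the strip over the arc `k` and has height at most `h`. -/
def Node (a ω h : ℝ) (γ : ℝ → ℝ × ℝ) (n : ℕ) (s t : ℝ) (k : ℤ) : Prop :=
  Cross (fun τ => ((F a)^[n] (γ τ)).1) s t (lo ω k) (hi ω k) ∧
    ∀ τ ∈ Icc s t, ∀ σ ∈ Icc s t, |((F a)^[n] (γ τ)).2 - ((F a)^[n] (γ σ)).2| ≤ h

/-- **LD-CODE** (pure Mathlib). A coded Cantor set on the line has positive content.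
PROOF. Put `e = log N / log (1 / r) > 0`, so `(1 / N) ^ n = (r ^ n) ^ e`. Let `m` be the uniform probability measure on
`ℕ → Fin N` (`MeasureTheory.Measure.infinitePi` of the uniform measures on `Fin N`, `[NeZero N]`), so that a cylinder, the set of
all `σ` with prescribed `σ 0, ..., σ (n - 1)`, has measure `N ^ (-n)`. For a set `A` of reals: `m (pt ⁻¹' A) ≤ (diam A / κ) ^ e`
(outer measure of an arbitrary set). If `diam A ≥ κ` this is clear because `m ≤ 1`. If `diam A < κ r ^ n`, then all points of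
`pt ⁻¹' A` have the same coordinates `0, ..., n` (if `σ`, `τ` first differ at `j ≤ n`, then
`dist (pt σ) (pt τ) ≥ κ r ^ j ≥ κ r ^ n > diam A`), so `pt ⁻¹' A` is contained in a cylinder of length `n + 1` and
`m (pt ⁻¹' A) ≤ N ^ (-(n + 1))`. If `0 < diam A < κ` take the `n` with `κ r ^ (n + 1) ≤ diam A < κ r ^ n`: then
`N ^ (-(n + 1)) = (r ^ (n + 1)) ^ e ≤ (diam A / κ) ^ e`. If `diam A = 0` all `n` are allowed and the measure is `0`. Finally
`1 = m univ ≤ ∑ m (pt ⁻¹' (t i)) ≤ ∑ (diam (t i) / κ) ^ e`; multiply by `κ ^ e`. (If some `diam (t i) = ∞` the sum is `∞`.) -/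
def S_CODE : Prop := ∀ (N : ℕ) (r κ : ℝ) (pt : (ℕ → Fin N) → ℝ), 2 ≤ N → 0 < r → r < 1 → 0 < κ →
  (∀ (σ τ : ℕ → Fin N) (n : ℕ), (∀ i < n, σ i = τ i) → σ n ≠ τ n → κ * r ^ n ≤ |pt σ - pt τ|) →
  ∀ t : ℕ → Set ℝ, range pt ⊆ ⋃ i, t i →
    ENNReal.ofReal (κ ^ (Real.log N / Real.log (1 / r))) ≤
      ∑' i, (Metric.ediam (t i)) ^ (Real.log N / Real.log (1 / r))

/-- **LD-SLICE** (pure Mathlib). Slices of positive content for all `y` of an interval give one more dimension.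
PROOF. Suppose `dimH E < 1 + s`. Then `μH[1 + s] E = 0` (`hausdorffMeasure_of_dimH_lt`, for `d = (1 + s).toNNReal`), so by
`MeasureTheory.Measure.hausdorffMeasure_apply` (with `r = 1`) for every `ε > 0` there is a cover `T i`, `i : ℕ`, of `E` with
`diam (T i) ≤ 1` and `∑ diam (T i) ^ (1 + s) < ε` (empty sets do not contribute: `EMetric.diam ∅ = 0`). Let `Q i` be the closed
interval from `inf` to `sup` of the second coordinates of `T i` if `T i` is not empty (or simply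
`Q i = EMetric.closedBall (q i).2 (diam (T i))`, `q i ∈ T i`, of volume at most `2 diam (T i)`) and `Q i = ∅` else. For `y ∈ J := [y₀ - δ, y₀ + δ]` the
sets `t i = {x | (x, y) ∈ T i}` cover the slice, are empty if `y ∉ Q i`, and have diameter at most `diam (T i)` (sup metric of
`ℝ × ℝ`). So `c ≤ ∑ i, indicator (Q i) (fun _ => diam (T i) ^ s) y` for all `y ∈ J`. Integrate over `J` (`lintegral_tsum`):
`c * 2 δ ≤ ∑ i, diam (T i) ^ s * volume (Q i) ≤ 2 ∑ i, diam (T i) ^ (1 + s) ≤ 2 ε` (`ENNReal.rpow_add_of_nonneg`). For small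
`ε` this is a contradiction. -/
def S_SLICE : Prop := ∀ (E : Set (ℝ × ℝ)) (y₀ δ s c : ℝ), 0 < δ → 0 < s → 0 < c →
  (∀ y ∈ Icc (y₀ - δ) (y₀ + δ), ∀ t : ℕ → Set ℝ, {x : ℝ | (x, y) ∈ E} ⊆ ⋃ i, t i →
    ENNReal.ofReal c ≤ ∑' i, (Metric.ediam (t i)) ^ s) →
  ENNReal.ofReal (1 + s) ≤ dimH E

/-- **LD-TREE.** A tree of nodes with `N` children each gives a coding.
PROOF. Choose for every node `(n, s, t, k)` with `P n s t k` the injective `f : Fin N → ℤ` and for every `i` the child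
`(n + 1, s', t', f i)` (choice; use the subtype `{x : ℝ × ℝ × ℤ // P n x.1 x.2.1 x.2.2}` and recursion over `n`). For
`σ : ℕ → Fin N` this gives a sequence of nodes `(s_n, t_n, k_n)`, `n ≥ 0`, which starts with `(s, t, k)`, the `(n+1)`-st depending
on `σ 0, ..., σ n` only, with `s_n` increasing, `t_n` decreasing, `s_n ≤ t_n` (part of `Cross`). Let `pt σ = sSup (range s_n)` (or any
point of the intersection of the intervals `[s_n, t_n]`). Then `pt σ ∈ [s_n, t_n]` for all `n`, and `Cross` gives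
`lo ω k_n ≤ g n (pt σ) ≤ hi ω k_n`. If `σ`, `τ` agree below `n` and `σ n ≠ τ n`, their `n`-th nodes are equal and the `(n+1)`-st
nodes are children `i = σ n` and `j = τ n` of the same node, with numbers `f i ≠ f j`; the values `g (n + 1) (pt σ)` and
`g (n + 1) (pt τ)` lie in different arcs, whose distance is at least `2 ω` (for integers `k ≠ l`, `|k - l| ≥ 1`). -/
def S_TREE : Prop := ∀ (g : ℕ → ℝ → ℝ) (N : ℕ) (P : ℕ → ℝ → ℝ → ℤ → Prop) (ω s t : ℝ) (k : ℤ), 0 < ω → ω < 1 / 4 →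
  (∀ n s t k, P n s t k → Cross (g n) s t (lo ω k) (hi ω k)) →
  (∀ n s t k, P n s t k → ∃ f : Fin N → ℤ, Function.Injective f ∧
    ∀ i, ∃ s' t', s ≤ s' ∧ t' ≤ t ∧ P (n + 1) s' t' (f i)) →
  P 0 s t k →
  ∃ pt : (ℕ → Fin N) → ℝ, (∀ σ, pt σ ∈ Icc s t) ∧
    (∀ σ n, ∃ k : ℤ, g n (pt σ) ∈ Icc (lo ω k) (hi ω k)) ∧
    ∀ (σ τ : ℕ → Fin N) (n : ℕ), (∀ i < n, σ i = τ i) → σ n ≠ τ n →
      2 * ω ≤ |g (n + 1) (pt σ) - g (n + 1) (pt τ)|

/-- **LD-CHILD.** A node has `N` children.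
PROOF. `F^[n+1] (γ τ)` has the coordinates `phi a x - y` and `x`, where `(x, y) = F^[n] (γ τ)` (`iter_fst'`, `iter_snd`). At the ends of
`[s, t]` the first coordinate of `F^[n]` is `lo ω k`, `hi ω k` (in one of the two orders) and
`sin (2 π hi ω k) = (-1)^k cos 2πω = - sin (2 π lo ω k)`, so `|phi a (hi ω k) - phi a (lo ω k)| ≥ 2 |a| cos 2πω - (1 - 4ω)`. The
`y`-values at the two ends differ by at most `h`. So the values `A`, `B` of the first coordinate of `F^[n+1] (γ ·)` at the two ends differ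
by at least `W = 2 |a| cos 2πω - 1 - h`, and `N + 1 ≤ 2 W`. Let `A ≤ B` (else exchange) and `k₀ = ⌈2 A + 1/2⌉`, `f i = k₀ + i`: then
`A ≤ k₀ / 2 - 1/4 ≤ lo ω (f i)` and `hi ω (f i) ≤ (k₀ + N - 1) / 2 + 1/4 ≤ A + 1/2 + N/2 ≤ A + W ≤ B`. Apply `cross_sub`
(`u`, `v` the ends with the values `A`, `B`) to get `s'`, `t'` with the crossing of the arc `f i` on `[s', t'] ⊆ [s, t]`. The second
coordinate of `F^[n+1]` on `[s', t']` is the first one of `F^[n]`, in the arc `k`, of length `1/2 - 2ω ≤ 1/2`.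
(Model: `cell_step` in `Pool/Agent/H242/TM/Spec.lean`.) -/
def S_CHILD : Prop := ∀ (a ω h : ℝ) (N : ℕ) (γ : ℝ → ℝ × ℝ) (n : ℕ) (s t : ℝ) (k : ℤ), 0 < ω → ω < 1 / 4 → 0 ≤ h →
  (N : ℝ) + 3 + 2 * h ≤ 4 * |a| * cos (2 * π * ω) → Continuous γ → Node a ω h γ n s t k →
  ∃ f : Fin N → ℤ, Function.Injective f ∧
    ∀ i, ∃ s' t', s ≤ s' ∧ t' ≤ t ∧ Node a ω (1 / 2) γ (n + 1) s' t' (f i)

/-- **LD-SEG.** A wide path grows until it has width `1`.
PROOF. Use `step_gen` (file `Paths.lean`) for the path `F^[m] ∘ γ`, which is explicit about the path (`F a ((F a)^[m] (γ τ))` is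
`(F a)^[m+1] (γ τ)`, `Function.iterate_succ_apply'`): from a crossing of width `e` with height at most `e`, `31/200 ≤ e ≤ 1/2`, one gets in
the next step one of width `e' = min 1 (4 |a| e^2 - 2 e)` (`phi_osc1`: `D = 4 |a| e^2 - e`, `h = e`) with height at most `e ≤ e'` (the new
second coordinate is the old first one, `abs_sub_le_of_mem`), and `4 |a| e^2 - 2 e ≥ (20 e - 2) e ≥ (11/10) e`. So after finitely many steps
`e ≥ 1/2`; then `phi_osc2` gives width `1` in the next step (see `step1`, `step2` in the same file, which are the same steps for sets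
instead of explicit paths). If at some time `e' = 1` one is done. -/
def S_SEG : Prop := ∀ (a : ℝ) (γ : ℝ → ℝ × ℝ) (n : ℕ) (s t u : ℝ), 5 ≤ |a| → Continuous γ →
  Cross (fun τ => ((F a)^[n] (γ τ)).1) s t u (u + 31 / 200) →
  (∀ τ ∈ Icc s t, ∀ σ ∈ Icc s t, |((F a)^[n] (γ τ)).2 - ((F a)^[n] (γ σ)).2| ≤ 31 / 200) →
  ∃ (m : ℕ) (s' t' u' : ℝ), s ≤ s' ∧ t' ≤ t ∧ Cross (fun τ => ((F a)^[m] (γ τ)).1) s' t' u' (u' + 1) ∧
    ∀ τ ∈ Icc s' t', ∀ σ ∈ Icc s' t', |((F a)^[m] (γ τ)).2 - ((F a)^[m] (γ σ)).2| ≤ 1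

/-- **LD-START.** Horizontal segments of all heights near the stable set contain nodes.
PROOF. The proof of `open_fwd` (file `Local.lean`) constructs `n₀`, `z ∈ ℝ²` and `ρ > 0` with `pr (z.1 + τ, z.2) ∈ S^[n₀] '' A` for `0 ≤ τ ≤ ρ`
and a time `N` and `[s', t'] ⊆ [0, ρ]` on which `τ ↦ (F^[N] (z.1 + τ, z.2)).1` crosses `[u, u + 31/200]`, with second coordinates which
differ by at most `31/200`: copy it (only the last lines, which forget the path, have to be changed). By `S_SEG` (hypothesis), applied to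
`γ = hor z.1 z.2`, there are `M` and `[s₁, t₁] ⊆ [0, ρ]` with a crossing of `[u, u + 1]` at the time `M` and height at most `1`. Choose
`k = ⌈2 u + 1/2⌉`: `u ≤ k/2 - 1/4` and `k/2 + 1/4 ≤ u + 1`. By uniform continuity of `(τ, y') ↦ F^[M] (z.1 + τ, y')` on the compact set `[s₁, t₁] × [z.2 - 1, z.2 + 1]`
there is `δ > 0` such that both coordinates change by less than `min ω (1/4)` if `|y' - z.2| ≤ δ`, `τ ∈ [s₁, t₁]`. Then at the ends the first coordinate
is below `lo ω k = k/2 - 1/4 + ω` and above `hi ω k` respectively, `cross_sub` gives the crossing of the arc `k`, and the second coordinates differ by at most `1 + 1/4 + 1/4 = 3/2`. The set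
`{(τ, y') | pr (z.1 + τ, y') ∈ S^[n₀] '' A}` is open (`isOpen_image`, `pr_cont`) and contains the compact segment `[0, ρ] × {z.2}`; decrease `δ` (tube lemma,
`generalized_tube_lemma`, or `IsCompact` and `Metric.isOpen_iff`). -/
def S_START : Prop := ∀ (a ω : ℝ) (A : Set T2), 5 ≤ |a| → 0 < ω → ω < 1 / 4 → IsOpen A → (A ∩ Ws a).Nonempty →
  ∃ (n₀ M : ℕ) (x y δ ρ : ℝ), 0 < δ ∧ 0 < ρ ∧
    (∀ y' ∈ Icc (y - δ) (y + δ), ∀ τ ∈ Icc 0 ρ, pr (hor x y' τ) ∈ (S a)^[n₀] '' A) ∧
    ∀ y' ∈ Icc (y - δ) (y + δ), ∃ (s t : ℝ) (k : ℤ), 0 ≤ s ∧ t ≤ ρ ∧ Node a ω (3 / 2) (hor x y') M s t k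

/-- **LD-DIM** (dimension and the torus). PROOF. First part: `pr` is locally isometric: for reals `|x - x'| ≤ 1/2` the distance of their
classes in `UnitAddCircle` is `|x - x'|` (`UnitAddCircle.norm_eq`, `round = 0`, or `AddCircle.norm_coe_eq_abs_iff`), and the metrics of `ℝ × ℝ` and of
`T2 = UnitAddCircle × UnitAddCircle` are the maxima. The plane is the union of the countably many squares `Q` of side `1/2` with corners in `(1/2) ℤ²`; on `Q` the map `pr` is an isometry,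
so the inverse (`Function.invFunOn pr Q`) is `1`-Lipschitz on `pr '' (Q ∩ pr ⁻¹' B) ⊆ B` and `dimH (Q ∩ pr ⁻¹' B) ≤ dimH B` (`LipschitzOnWith.dimH_image_le`);
`dimH_iUnion`. Second part: `S a` is Lipschitz (then so are its iterates, `LipschitzWith.iterate`, `LipschitzWith.dimH_image_le`): for `z, w` in the torus there are `p, q` in the plane with `pr p = z`,
`pr q = w` and `dist p q = dist z w` (change `q` by integers, `UnitAddCircle.norm_eq`); `pr` is `1`-Lipschitz and `F a` is Lipschitz with the constant `3 + 2 π |a|`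
(`phi a` has the derivative `2 + 2 π a cos`, or use `|sin u - sin v| ≤ |u - v|`), and `S a (pr p) = pr (F a p)` (`pr_F`). -/
def S_DIM : Prop := (∀ B : Set T2, dimH (pr ⁻¹' B) ≤ dimH B) ∧
  ∀ (a : ℝ) (n : ℕ) (B : Set T2), dimH ((S a)^[n] '' B) ≤ dimH B

/-- **LD-AVOID.** A point whose orbit avoids the strips from some time on belongs to `X = closure (Ws a)`.
PROOF. Suppose not; `D = Dom a p` (the component of `p` in the complement of `X`) is an island (`island_comp`, `Dom` is by definition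
`connectedComponentIn`), so open with `(S a)^[q] '' D = D` for some `q ≥ 1`. For every `k` put `j = (k + n₀) * q - k` (`≥ n₀`) and `y = S^[j] p`; then
`S^[k] y = S^[(k + n₀) q] p ∈ D` (`image_mul`, `p ∈ D`), so `Dom a (S^[k] y) = D` (`connectedComponentIn_eq`), `S^[n] y ∉ strips` for all `n`, and `smallBy_visit` says that `D` is
`SmallBy (3 / (4 |a|) / 3 ^ k)`. But `D` is open and contains `pr v` for all `v` in a small ball (in the plane) about a point over `p`, a connected set with two points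
of positive distance (or use `Island.not_wd`: there is `e > 0` with `¬ Wd D e`). For large `k` a contradiction. -/
def S_AVOID : Prop := ∀ (a : ℝ) (p : T2) (n₀ : ℕ), 5 ≤ |a| → (∀ n ≥ n₀, (S a)^[n] p ∉ strips a) → p ∈ closure (Ws a)

/-- **LD-LYAP.** Growth of the derivative along orbits which avoid the strips of half width `ω`.
PROOF. `F a` has at `(x, y)` the derivative `(u, v) ↦ (φ' (x) u - v, u)`, `φ' x = dphi a x = 2 + 2 π a cos 2 π x` (`phi_hasDeriv`), a bijective linear map. By the chain rule the derivative of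
`F^[n]` at `p` exists and is the composition (`HasFDerivAt.iterate`-like induction; all are bijective). On the arcs `|cos 2 π x| ≥ sin 2 π ω` (with
`x = k/2 + v`, `|v| ≤ 1/4 - ω`, `|cos 2 π x| = cos 2 π v ≥ cos (π/2 - 2 π ω)`), so `|φ' x_n| ≥ 2 π |a| sin 2 π ω - 2 = L + 1` for `n ≥ n₀`, where `L = 2 π |a| sin 2 π ω - 3 ≥ 1` because
`sin 2 π ω ≥ 4 ω > 4 / |a|` (`sin_ge` in `Paths.lean`). Choose `w` with `D F^[n₀] (p) w = (1, 0)` (bijectivity), `w ≠ 0`. Then for `n ≥ n₀` the vector `D F^[n] (p) w = (u_n, v_n)` has `|u_n| ≥ L ^ (n - n₀)` and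
`|v_n| ≤ |u_n|` by induction: `|u_{n+1}| ≥ (L + 1) |u_n| - |v_n| ≥ L |u_n|`, `v_{n+1} = u_n`. So `‖D F^[n] (p)‖ ≥ L ^ (n - n₀) / ‖w‖` for `n ≥ n₀`; for `n < n₀` the
derivative is not zero (bijective), decrease `c` (minimum over finitely many `n`). -/
def S_LYAP : Prop := ∀ (a ω : ℝ) (p : ℝ × ℝ) (n₀ : ℕ), 5 ≤ |a| → 1 / |a| < ω → ω < 1 / 4 →
  (∀ n ≥ n₀, ∃ k : ℤ, ((F a)^[n] p).1 ∈ Icc (lo ω k) (hi ω k)) →
  1 < 2 * π * |a| * sin (2 * π * ω) - 3 ∧
  ∃ c > 0, ∀ n : ℕ, c * (2 * π * |a| * sin (2 * π * ω) - 3) ^ n ≤ ‖fderiv ℝ ((F a)^[n]) p‖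

/-- **LD-ARC** The arcs in terms of the distance of the circle `UnitAddCircle` from `1/4` and `3/4`.
PROOF. `dist (x : UnitAddCircle) (1/4) = |x - 1/4 - round (x - 1/4)|` is the distance of `x - 1/4` from the integers
(`UnitAddCircle.norm_eq`, `dist_eq_norm`, `AddCircle.coe_sub`), similarly for `3/4`. Put `k = ⌊2 x + 1/2⌋`, so that `k/2 - 1/4 ≤ x < k/2 + 1/4`. The two points `k/2 - 1/4` and `k/2 + 1/4` are congruent to
`1/4` and `3/4` modulo `1` in some order (parity of `k`), so both distances are at least `ω` if and only if `x ∈ [lo ω k, hi ω k]` (from left to right: the distance of `x` from each of the two points is at most `1/2`).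
Conversely, if `x ∈ [lo ω k, hi ω k]` for some `k`, then `|x - (l/2 + 1/4)| ≥ ω` for all integers `l`. -/
def S_ARC : Prop := ∀ (ω x : ℝ), 0 < ω → ω < 1 / 4 →
  ((∃ k : ℤ, x ∈ Icc (lo ω k) (hi ω k)) ↔
    ω ≤ dist (x : UnitAddCircle) ((1 / 4 : ℝ) : UnitAddCircle) ∧ ω ≤ dist (x : UnitAddCircle) ((3 / 4 : ℝ) : UnitAddCircle))

/-- **LD-NUM** (pure Mathlib). Numbers. PROOF. Let `N = ⌊4 |a| cos (π/6) - 4⌋`, `cos (π/6) = √3/2 ≥ 0.866`, so `N ≥ 3.464 |a| - 5 ≥ 3.04 |a|` for `|a| ≥ 12`, and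
`2 π |a| + 3 ≤ 6.2832 |a| + |a| / 4 ≤ 6.54 |a|`. So `log N ≥ log |a| + log 3.04` and, with `A = log |a|`, `R = log (2 π |a| + 3)`: `1 - log N / R = (R - log N) / R ≤ log (6.54 / 3.04) / R ≤ 0.8 / A ≤ 1 / A`, as `R ≥ A` and `6.54 / 3.04 < 2.2 < e`
(so the logarithm is at most `1`; that is enough). `sin (2 π / 12) = 1/2`, `π |a| - 3 ≥ 2 |a|`. -/
def S_NUM : Prop := ∀ a : ℝ, 12 ≤ |a| → ∃ N : ℕ, 3 ≤ N ∧ (N : ℝ) + 4 ≤ 4 * |a| * cos (2 * π * (1 / 12)) ∧
  2 - 1 / Real.log |a| ≤ 1 + Real.log N / Real.log (2 * π * |a| + 3) ∧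
  2 * |a| ≤ 2 * π * |a| * sin (2 * π * (1 / 12)) - 3

end Pool.Agent.H242.LD
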