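import Pool.Agent.H242.LD.Fin

set_option autoImplicit false

/-!
# Local dimension of the standard map: lemmas for the bound `2 - C ω / log (|a| ω)` (project LE of helper242)

Notation as in `Pool/Agent/H242/LD/Stm.lean`: `F a`, `phi a`, `dphi a x = 2 + 2 π a cos 2 π x` (the derivative of `phi a`), `pr`,
`S a`, `Ws a`, arcs `[lo ω k, hi ω k]`, `hor x y τ = (x + τ, y)`, `Cross`.
-/

namespace Pool.Agent.H242.LD

open Real Set Metric Filter Topology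
open Pool.Agent.TH705.SM (T2 S Si)
open Pool.Agent.H242.TM

/-- the first coordinate of the `n`-th iterate along the horizontal line -/
noncomputable def Xn (a x y : ℝ) (n : ℕ) (τ : ℝ) : ℝ := ((F a)^[n] (hor x y τ)).1

/-- the smallest value of `|dphi a|` on the arcs -/
noncomputable def mm (a ω : ℝ) : ℝ := 2 * π * |a| * sin (2 * π * ω) - 2

/-- Nodes with the information on the past: `Xn n` crosses the arc `k` on `[s, t]`, and before the time `n` the derivative of `phi a` is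
large along the orbits. -/
def Nod (a ω x y : ℝ) (n : ℕ) (s t : ℝ) : Prop := s < t ∧
  (∃ k : ℤ, Cross (Xn a x y n) s t (lo ω k) (hi ω k)) ∧
  ∀ j < n, ∀ τ ∈ Icc s t, mm a ω ≤ |dphi a (Xn a x y j τ)|

/-- **LE-DIFF.** Cone and curvature estimates along a horizontal line.
PROOF. Put `X_n = Xn a x y n` and `Y_n τ = ((F a)^[n] (hor x y τ)).2`; `X_{n+1} = phi a (X_n) - Y_n`, `Y_{n+1} = X_n` (`iter_fst'`, `iter_snd`),
`X_0 = x + τ`, `Y_0 = y`; all are `C^∞`. Induction on `n` (for the fixed `τ`) of: `X_n' ≠ 0`, `|Y_n'| ≤ |X_n'|`, `|X_n''| ≤ X_n'^2 / 10`, `|Y_n''| ≤ X_n'^2 / 10`. For `n = 0`: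
`1, 0, 0, 0`. Step: let `D = |dphi a (X_n τ)| ≥ m`. `X_{n+1}' = dphi X_n' - Y_n'`, so `|X_{n+1}'| ≥ (D - 1) |X_n'| > 0` and `≥ |X_n'| = |Y_{n+1}'|`. The second derivative of
`phi a` is `-4 π² a sin 2πx`, bounded by `4 π² |a| ≤ m (m - 3) / 10 ≤ D (D - 3) / 10`; `X_{n+1}'' = phi'' X_n'^2 + phi' X_n'' - Y_n''`, so
`|X_{n+1}''| ≤ (D (D - 3) + D + 1) / 10 X_n'^2 = (D - 1)^2 / 10 X_n'^2 ≤ X_{n+1}'^2 / 10`; `|Y_{n+1}''| = |X_n''| ≤ X_n'^2 / 10 ≤ X_{n+1}'^2 / 10`. The last inequality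
of the statement: `|X_{n+1}'| ≤ (2 π |a| + 2 + 1) |X_n'|`. -/
def S_DIFF : Prop := ∀ (a x y m : ℝ) (n : ℕ) (τ : ℝ), 5 ≤ m → 4 * π ^ 2 * |a| ≤ m * (m - 3) / 10 →
  (∀ j < n, m ≤ |dphi a (Xn a x y j τ)|) →
  ContDiff ℝ 2 (Xn a x y n) ∧ deriv (Xn a x y n) τ ≠ 0 ∧
  |deriv (deriv (Xn a x y n)) τ| ≤ 1 / 10 * (deriv (Xn a x y n) τ) ^ 2 ∧
  |deriv (Xn a x y (n + 1)) τ| ≤ (2 * π * |a| + 3) * |deriv (Xn a x y n) τ| ∧
  (|dphi a (Xn a x y n τ)| - 1) * |deriv (Xn a x y n) τ| ≤ |deriv (Xn a x y (n + 1)) τ|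

/-- **LE-DIST** (pure Mathlib). Bounded distortion.
PROOF. `deriv g` is continuous and has no zero on `[s, t]`, so it has a constant sign; replace `g` by `-g` if it is negative. Then `log g'` has the
derivative `g'' / g'`, of absolute value at most `B g'`, so `log g' - B g` is decreasing and `log g' + B g` is increasing on `[s, t]`
(`antitoneOn_of_deriv_nonpos`, `monotoneOn_of_deriv_nonneg`). So `log g' τ - log g' σ ≤ B |g τ - g σ|` (for `σ ≤ τ` by the first, for `τ ≤ σ` by the second). -/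
def S_DIST : Prop := ∀ (g : ℝ → ℝ) (s t B : ℝ), 0 ≤ B → ContDiff ℝ 2 g → (∀ τ ∈ Icc s t, deriv g τ ≠ 0) →
  (∀ τ ∈ Icc s t, |deriv (deriv g) τ| ≤ B * (deriv g τ) ^ 2) →
  ∀ τ ∈ Icc s t, ∀ σ ∈ Icc s t, |deriv g τ| ≤ exp (B * |g τ - g σ|) * |deriv g σ|

/-- **LE-LEN.** Total length of the crossings of arcs. `S_DIST` is a hypothesis.
PROOF. As `deriv g` has constant sign on `[s, t]` we may assume that it is positive (else replace `g` by `-g` and the number `k` of an arc by `-k`: `lo ω (-k) = - hi ω k`), so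
`g` is strictly increasing on `[s, t]`. Let `k₀ = ⌈2 g s + 1/2⌉` and `k₁ = ⌊2 g t - 1/2⌋`, so that
`g s ≤ k₀ / 2 - 1/4 < g s + 1/2` and `g t - 1/2 < k₁ / 2 + 1/4 ≤ g t`. If `k₁ < k₀`, then `g t - g s < 1`, so `t - s ≤ 1 / G₁` (mean value theorem) and `N = 0` will do. Else let
`N = k₁ - k₀ + 1`, `k i = k₀ + i`, and let `u i < v i` be the points of `[s, t]` with `g (u i) = lo ω (k i)`, `g (v i) = hi ω (k i)` (intermediate value theorem; `g` is injective and monotone, which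
gives `Cross` and the order). Separation: for `i ≠ j` and `x ∈ [u i, v i]`, `x' ∈ [u j, v j]` the values of `g` are in different arcs, `2 ω ≤ |g x - g x'| ≤ G₂ |x - x'|`. `v i - u i ≤ (1/2) / G₁`. For
`i + 1 < N` the gap has length `u (i+1) - v i = 2 ω / g' ξ` and `v (i+1) - u (i+1) = (1/2 - 2 ω) / g' ξ'` with
`|g ξ - g ξ'| ≤ 1/2`, so by `S_DIST` the gap is at most `4 ω / (1 - 4 ω) exp (1/20) ≤ 6 ω` (`ω ≤ 1/16`: `4 / (3/4) * 1.052 ≤ 5.7`) times `v (i+1) - u (i+1)`. So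
`v (N-1) - u 0 = ∑ (v i - u i) + ∑ gaps ≤ (1 + 6 ω) ∑ (v i - u i)`. The end pieces: `u 0 - s ≤ (lo ω k₀ - g s) / G₁ ≤ (1/2 + ω) / G₁ ≤ (3/5) / G₁`, the same for `t - v (N-1)`.
So `t - s ≤ (1 + 6 ω) ∑ (v i - u i) + (6/5) / G₁`, and `(1 - 7 ω) (1 + 6 ω) ≤ 1`. -/
def S_LEN : Prop := ∀ (g : ℝ → ℝ) (s t ω G₁ G₂ : ℝ), s < t → 0 < ω → ω ≤ 1 / 16 → 0 < G₁ → ContDiff ℝ 2 g →
  (∀ τ ∈ Icc s t, G₁ ≤ |deriv g τ| ∧ |deriv g τ| ≤ G₂) →
  (∀ τ ∈ Icc s t, |deriv (deriv g) τ| ≤ 1 / 10 * (deriv g τ) ^ 2) →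
  ∃ (N : ℕ) (k : Fin N → ℤ) (u v : Fin N → ℝ),
    (∀ i, s ≤ u i ∧ u i < v i ∧ v i ≤ t ∧ v i - u i ≤ 1 / 2 / G₁ ∧ Cross g (u i) (v i) (lo ω (k i)) (hi ω (k i))) ∧
    (∀ i j, i ≠ j → ∀ x ∈ Icc (u i) (v i), ∀ x' ∈ Icc (u j) (v j), 2 * ω / G₂ ≤ |x - x'|) ∧
    (1 - 7 * ω) * ((t - s) - 6 / 5 / G₁) ≤ ∑ i, (v i - u i)

/-- **LE-KID.** Children of a node and the sum of the powers of their lengths. `S_DIFF`, `S_DIST`, `S_LEN` are hypotheses.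
PROOF. Let `m = mm a ω`, `g = Xn a x y (n + 1)`, `h = Xn a x y n`, `l = t - s`. On `[s, t]` `h` is in the arc `k`, so `|cos 2 π h| ≥ sin 2 π ω` and `|dphi a h| ≥ m` (`h = k/2 + v`, `|v| ≤ 1/4 - ω`, `|cos 2πh| = cos 2πv ≥ cos (π/2 - 2πω)`);
so the assumptions of `S_DIFF` hold for `n` and for `n + 1` at all `τ ∈ [s, t]`. By the mean value theorem `|h' τ₀| = (1/2 - 2 ω) / l` for some `τ₀`, between `3/8 / l` and `1/2 / l`, and by `S_DIST` (`|h τ - h τ₀| ≤ 1/2`)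
`|h' τ| ∈ [exp (-1/20) 3/8 / l, exp (1/20) 1/2 / l] ⊆ [(7/20) / l, (11/20) / l]`. So `(m - 1) (7/20) / l ≤ |g'| ≤ R (11/20) / l`, `R = 2 π |a| + 3` (last two parts of `S_DIFF`). Put `G₁ = (m - 1) (7/20) / l`, `G₂ = R (11/20) / l` in `S_LEN`: lengths
`v i - u i ≤ (1/2) / G₁ = (10/7) l / (m - 1) ≤ 2 l / (m - 1) ≤ l / 2`, separation `2 ω / G₂ ≥ 2 ω l / R`, sum `≥ (1 - 7 ω) (1 - (24/7) / (m - 1)) l ≥ (1 - 7 ω) (1 - 4 / (m - 1)) l`. With `0 < e < 1`: `(v i - u i)^e = (v i - u i) (v i - u i)^(e-1) ≥ (v i - u i) (2 l / (m - 1))^(e-1)`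
(`Real.rpow_le_rpow_of_nonpos`), so the sum of the powers is at least `l^e ((m - 1)/2)^(1-e) (1 - 7 ω) (1 - 4/(m - 1)) ≥ l^e`. The children satisfy `Nod (n + 1)`: on `[u i, v i] ⊆ [s, t]` the bound for `j < n` is inherited and for `j = n` it was shown. -/
def S_KID : Prop := ∀ (a ω e x y : ℝ) (n : ℕ) (s t : ℝ), 0 < ω → ω ≤ 1 / 16 → 100 ≤ mm a ω →
  4 * π ^ 2 * |a| ≤ mm a ω * (mm a ω - 3) / 10 → 0 < e → e < 1 →
  1 ≤ ((mm a ω - 1) / 2) ^ (1 - e) * ((1 - 7 * ω) * (1 - 4 / (mm a ω - 1))) →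
  Nod a ω x y n s t →
  ∃ (N : ℕ) (u v : Fin N → ℝ),
    (∀ i, s ≤ u i ∧ v i ≤ t ∧ v i - u i ≤ (t - s) / 2 ∧ Nod a ω x y (n + 1) (u i) (v i)) ∧
    (∀ i j, i ≠ j → ∀ z ∈ Icc (u i) (v i), ∀ z' ∈ Icc (u j) (v j), 2 * ω / (2 * π * |a| + 3) * (t - s) ≤ |z - z'|) ∧
    (t - s) ^ e ≤ ∑ i, (v i - u i) ^ e

/-- **LE-TREE2** (pure Mathlib). Content of the limit set of a tree of intervals.
PROOF. First let all `U i` be open. For an interval `I = [s, t]` let `Q (I)` be the statement `(c (t - s))^e ≤ ∑' i, if (U i ∩ I).Nonempty then diam (U i) ^ e else 0` (in `ENNReal`; `c ≤ 1`).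
(1) If `I ⊆ U i` for some `i`, then `Q (I)`, because `diam (U i) ≥ t - s ≥ c (t - s)`. (2) If `P n s t` and `Q` holds for all the children `[u i, v i]`, then `Q ([s, t])`: if some `U j` meets two different children, then `diam (U j) ≥ c (t - s)`; otherwise the sets of
indices `j` of the `U j` which meet the children are disjoint for different children, so the sum for `[s, t]` is at least `∑ i, (c (v i - u i))^e ≥ c^e (t - s)^e`. (3) Suppose `Q ([s₀, t₀])` fails. By (2) and choice there is a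
sequence of nested intervals `I_n` with `P n I_n`, all with `¬ Q (I_n)`, of lengths at most `(t₀ - s₀) / 2^n`; let `x` be their common point. `x` belongs to the limit set, so to some `U i`, which is open, so `I_n ⊆ U i` for large `n`: contradiction to (1). So
`Q ([s₀, t₀])` holds and `(c (t₀ - s₀))^e ≤ ∑ diam (U i)^e`. For arbitrary sets `T i` and `ε > 0` take open `U i ⊇ T i` with `diam (U i)^e ≤ diam (T i)^e + ε / 2^i`: `U i = Metric.thickening δ_i (T i)`, `diam ≤ diam (T i) + 2 δ_i`, by continuity of `r ↦ r^e` at `diam (T i)`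
(if it is infinite there is nothing to prove; if `T i` is empty take `U i` empty). -/
def S_TREE2 : Prop := ∀ (P : ℕ → ℝ → ℝ → Prop) (c e s₀ t₀ : ℝ), 0 < c → c ≤ 1 → 0 < e →
  (∀ n s t, P n s t → s < t) →
  (∀ n s t, P n s t → ∃ (N : ℕ) (u v : Fin N → ℝ),
    (∀ i, s ≤ u i ∧ v i ≤ t ∧ v i - u i ≤ (t - s) / 2 ∧ P (n + 1) (u i) (v i)) ∧
    (∀ i j, i ≠ j → ∀ z ∈ Icc (u i) (v i), ∀ z' ∈ Icc (u j) (v j), c * (t - s) ≤ |z - z'|) ∧
    (t - s) ^ e ≤ ∑ i, (v i - u i) ^ e) →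
  P 0 s₀ t₀ →
  ∀ T : ℕ → Set ℝ, {x : ℝ | x ∈ Icc s₀ t₀ ∧ ∀ n, ∃ s t, P n s t ∧ x ∈ Icc s t} ⊆ ⋃ i, T i →
    ENNReal.ofReal ((c * (t₀ - s₀)) ^ e) ≤ ∑' i, (Metric.ediam (T i)) ^ e

/-- **LE-START2.** Horizontal segments of all heights near the stable set contain nodes `Nod`.
PROOF. As for `S_START` (file `Pool/Agent/H977/LD/START.lean` by helper977 and `open_fwd` in `Local.lean`): there are `z`, `ρ`, `n₀` and the FIRST time `N` at which some point of the segment `{(z.1 + τ, z.2)}`, `0 ≤ τ ≤ ρ`, has distance more than `31/200` from the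
point `τ = 0` (first coordinates), and `[s', t'] ⊆ [0, ρ]` such that `Xn N` crosses on `[s', t']` an interval of length `31/200` one end of which is `Xn N 0`, where `|Xn j 0| < 1/100` for all `j`. So `|Xn j τ| ≤ 1/6` for `j < N`, `τ ∈ [0, ρ]`, and for `j = N`,
`τ ∈ [s', t']`; the second coordinates of `F^[N]` on `[s', t']` differ by at most `31/200`. At the time `M = N + 1` the values of `Xn M` at `s'` and `t'` differ by at least `(2 |a| - 2) (31/200) - 31/200 ≥ 100` (proof of `phi_exp` in `Local.lean`: `|phi a x - phi a y| ≥ (2 |a| - 2) |x - y|` for `|x|, |y| ≤ 1/6`; `|a| ≥ 1000`).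
By uniform continuity on compact sets there is `δ > 0` such that for `|y' - z.2| ≤ δ`, `τ ∈ [0, ρ]`, `j ≤ M` the values `Xn a z.1 y' j τ` differ by at most `1/100` from those for `z.2`. So for these `y'` the values at `s'` and `t'` at the time `M` differ by more than `99`, `cross_sub` gives a crossing
`[s, t] ⊆ [s', t']` of some arc `k` by `Xn a z.1 y' M` (`s < t` because `lo ω k < hi ω k`), and `|Xn a z.1 y' j τ| ≤ 1/6 + 1/100` for `j < M`, `τ ∈ [s, t]`, so `|dphi a| ≥ 2 π |a| cos (2 π (1/6 + 1/100)) - 2 ≥ 2 π |a| sin (π/8) - 2 ≥ mm a ω` (`2π (1/6 + 1/100) ≤ 3π/8`; `2 π ω ≤ π / 8`, and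
`cos (3π/8) = sin (π/8)`). -/
def S_START2 : Prop := ∀ (a ω : ℝ) (A : Set T2), 1000 ≤ |a| → 0 < ω → ω ≤ 1 / 16 → IsOpen A → (A ∩ Ws a).Nonempty →
  ∃ (n₀ M : ℕ) (x y δ ρ : ℝ), 0 < δ ∧ 0 < ρ ∧
    (∀ y' ∈ Icc (y - δ) (y + δ), ∀ τ ∈ Icc 0 ρ, pr (hor x y' τ) ∈ (S a)^[n₀] '' A) ∧
    ∀ y' ∈ Icc (y - δ) (y + δ), ∃ s t : ℝ, 0 ≤ s ∧ t ≤ ρ ∧ Nod a ω x y' M s t

/-- **LE-NUM2** (pure Mathlib, except for the definition of `mm`). Numbers. PROOF. `sin 2πω ≥ 4ω` for `0 ≤ ω ≤ 1/4` (`sin_ge` in `Paths.lean`, or `Real.mul_le_sin`), so `m := mm a ω ≥ 8 π |a| ω - 2 ≥ 25 |a| ω - 2`; `|a| ω ≥ √|a| ≥ 31`, `|a| ω² ≥ 1`. So `m ≥ 700`,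
`m (m - 3) ≥ (25 |a| ω - 2) (25 |a| ω - 5) ≥ 625 |a|² ω² - 175 |a| ω ≥ |a| (625 - 175/16) ≥ 600 |a| ≥ 10 * 4 π² |a|` as `4 π² < 39.5` (`π < 3.1416`), which gives the second claim. Third: `e = 1 - 13 ω / log (|a| ω)`, `log (|a| ω) ≥ log 31 > 3`, `13/16/3 < 1`, so `0 < e < 1`. Fourth, by taking logarithms:
`(1 - e) log ((m - 1)/2) ≥ 13 ω` because `(m - 1)/2 ≥ |a| ω`, and `- log (1 - 7ω) ≤ 7ω / (1 - 7ω) ≤ (112/9) ω ≤ 12.5 ω`, `- log (1 - 4/(m-1)) ≤ (4/(m-1)) / (1 - 4/(m-1)) ≤ 4.1/(m - 1) ≤ 4.1/(24 |a| ω) ≤ 0.2 ω` (`1/(|a| ω) ≤ ω`). (`Real.one_sub_inv_le_log_of_pos`.) -/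
def S_NUM2 : Prop := ∀ a ω : ℝ, 1000 ≤ |a| → 1 / √|a| ≤ ω → ω ≤ 1 / 16 →
  100 ≤ mm a ω ∧ 4 * π ^ 2 * |a| ≤ mm a ω * (mm a ω - 3) / 10 ∧ 1 / |a| < ω ∧
  0 < 1 - 13 * ω / Real.log (|a| * ω) ∧ 1 - 13 * ω / Real.log (|a| * ω) < 1 ∧
  1 ≤ ((mm a ω - 1) / 2) ^ (1 - (1 - 13 * ω / Real.log (|a| * ω))) * ((1 - 7 * ω) * (1 - 4 / (mm a ω - 1)))

end Pool.Agent.H242.LD
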